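import Mathlib

/-!
Definitions for the graph amplitude of point configurations in `ℝ^3`.
-/

set_option autoImplicit false

namespace Pool.Agent.Lib.MP229e70

open Complex

/-- Euclidean three-space. -/
abbrev E3 : Type := EuclideanSpace ℝ (Fin 3)

/-- The matrix `v · σ = v₁ σ₁ + v₂ σ₂ + v₃ σ₃` with the Pauli matrices. -/
noncomputable def pauliDot (v : E3) : Matrix (Fin 2) (Fin 2) ℂ :=
  ((v 0 : ℝ) : ℂ) • !![0, 1; 1, 0] + ((v 1 : ℝ) : ℂ) • !![0, -I; I, 0] +
    ((v 2 : ℝ) : ℂ) • !![1, 0; 0, -1]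

/-- The symplectic form `ω((u₁,v₁),(u₂,v₂)) = u₁ v₂ - u₂ v₁` on `ℂ^2`. -/
def omega (p q : Fin 2 → ℂ) : ℂ := p 0 * q 1 - q 0 * p 1

variable {V : Type} (G : SimpleGraph V)

/-- Admissible configurations: adjacent vertices are sent to distinct points. -/
def Admissible (x : V → E3) : Prop := ∀ i j, G.Adj i j → x i ≠ x j

/-- The unit vector `v_{ij}` pointing from `x i` to `x j`. -/
noncomputable def dir (x : V → E3) (i j : V) : E3 := ‖x j - x i‖⁻¹ • (x j - x i)

/-- The set `S_G` of ordered pairs `(i,j)` of adjacent vertices is `G.Dart`. `ψ` is a choice, for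
every such pair, of a unit vector `ψ_{ij}` of `ℂ^2` with `(v_{ij} · σ) ψ_{ij} = ψ_{ij}`. -/
def IsSpinorChoice (x : V → E3) (ψ : G.Dart → (Fin 2 → ℂ)) : Prop :=
  ∀ d : G.Dart, ‖ψ d 0‖ ^ 2 + ‖ψ d 1‖ ^ 2 = 1 ∧
    (pauliDot (dir x d.fst d.snd)).mulVec (ψ d) = ψ d

/-- `Δ` contains exactly one of the pairs `(i,j)`, `(j,i)` for every edge. -/
def IsOrientation (Δ : Finset G.Dart) : Prop := ∀ d : G.Dart, d ∈ Δ ↔ d.symm ∉ Δ

variable [Fintype V] [DecidableEq V] [DecidableRel G.Adj]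

/-- The group `P_G` of bijections of `S_G` that keep the first coordinate fixed. -/
def vertexPerms : Finset (Equiv.Perm G.Dart) :=
  Finset.univ.filter (fun σ => ∀ d : G.Dart, (σ d).fst = d.fst)

/-- The amplitude computed from a spinor choice and an orientation. -/
noncomputable def amplitude (ψ : G.Dart → (Fin 2 → ℂ)) (Δ : Finset G.Dart) : ℂ :=
  (∑ σ ∈ vertexPerms G, ∏ d ∈ Δ, omega (ψ (σ d)) (ψ (σ d.symm))) /
    ∏ d ∈ Δ, omega (ψ d) (ψ d.symm)

end Pool.Agent.Lib.MP229e70
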