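import Mathlib
import Pool.Agent.Lib.MP_229e70_co.Defs

/-!
The amplitude of a cycle as the trace of a power of a transfer matrix.
-/

set_option autoImplicit false

namespace Pool.Agent.Lib.MP229e70

open Complex Finset SimpleGraph

variable {m : ℕ}

/-- Forward dart at `i`. -/
def fwd (i : Fin (m + 3)) : (cycleGraph (m + 3)).Dart :=
  ⟨(i, i + 1), cycleGraph_adj.2 (Or.inr (by simp))⟩

/-- Backward dart at `i`. -/
def bwd (i : Fin (m + 3)) : (cycleGraph (m + 3)).Dart :=
  ⟨(i, i - 1), cycleGraph_adj.2 (Or.inl (by simp))⟩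

/-- All darts, indexed by the vertex and a bit. -/
def dt (p : Fin (m + 3) × Bool) : (cycleGraph (m + 3)).Dart :=
  if p.2 then bwd p.1 else fwd p.1

lemma dt_false (i : Fin (m + 3)) : dt (i, false) = fwd i := rfl
lemma dt_true (i : Fin (m + 3)) : dt (i, true) = bwd i := rfl

lemma dt_fst (p : Fin (m + 3) × Bool) : (dt p).fst = p.1 := by
  rcases p with ⟨i, b⟩
  cases b <;> rfl

lemma add_one_ne_sub_one (i : Fin (m + 3)) : i + 1 ≠ i - 1 := by
  intro h
  have h2 : (1 : Fin (m + 3)) + 1 = 0 := by
    have h3 : i + 1 + 1 - i = i - 1 + 1 - i := by rw [h]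
    have h4 : i - 1 + 1 - i = 0 := by rw [sub_add_cancel, sub_self]
    rw [h4, add_assoc, add_sub_cancel_left] at h3
    exact h3
  have h5 := congrArg Fin.val h2
  rw [Fin.val_add] at h5
  simp at h5
  rw [Nat.mod_eq_of_lt (by omega)] at h5
  omega

lemma fwd_ne_bwd (i j : Fin (m + 3)) : fwd i ≠ bwd j := by
  intro h
  have h1 : i = j := congrArg (fun d : (cycleGraph (m + 3)).Dart => d.fst) h
  have h2 : i + 1 = j - 1 := congrArg (fun d : (cycleGraph (m + 3)).Dart => d.snd) h
  subst h1
  exact add_one_ne_sub_one i h2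

lemma dt_injective : Function.Injective (dt (m := m)) := by
  rintro ⟨i, b⟩ ⟨j, c⟩ h
  have h1 : i = j := by
    have := congrArg (fun d : (cycleGraph (m + 3)).Dart => d.fst) h
    simpa [dt_fst] using this
  subst h1
  cases b <;> cases c
  · rfl
  · exact absurd h (fwd_ne_bwd i i)
  · exact absurd h.symm (fwd_ne_bwd i i)
  · rfl

lemma dt_surjective : Function.Surjective (dt (m := m)) := by
  intro d
  have h := cycleGraph_adj.1 d.adj
  rcases h with h | h
  · refine ⟨(d.fst, true), ?_⟩
    rw [dt_true, Dart.ext_iff]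
    apply Prod.ext
    · rfl
    · show d.fst - 1 = d.snd
      rw [← h]; simp
  · refine ⟨(d.fst, false), ?_⟩
    rw [dt_false, Dart.ext_iff]
    apply Prod.ext
    · rfl
    · show d.fst + 1 = d.snd
      rw [← h]; simp

/-- The darts of the cycle. -/
noncomputable def dtE : Fin (m + 3) × Bool ≃ (cycleGraph (m + 3)).Dart :=
  Equiv.ofBijective dt ⟨dt_injective, dt_surjective⟩

lemma dtE_apply (p : Fin (m + 3) × Bool) : dtE p = dt p := rfl

lemma symm_fwd (i : Fin (m + 3)) : (fwd i).symm = bwd (i + 1) := by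
  rw [Dart.ext_iff]
  apply Prod.ext
  · rfl
  · show i = i + 1 - 1
    simp

lemma symm_bwd (i : Fin (m + 3)) : (bwd i).symm = fwd (i - 1) := by
  rw [Dart.ext_iff]
  apply Prod.ext
  · rfl
  · show i = i - 1 + 1
    simp

/-- Swap pattern as a permutation of vertex-bit pairs. -/
def swp (s : Fin (m + 3) → Bool) : Equiv.Perm (Fin (m + 3) × Bool) where
  toFun p := (p.1, xor p.2 (s p.1))
  invFun p := (p.1, xor p.2 (s p.1))
  left_inv p := by simp
  right_inv p := by simp

/-- Swap pattern as a permutation of darts. -/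
noncomputable def permS (s : Fin (m + 3) → Bool) : Equiv.Perm (cycleGraph (m + 3)).Dart :=
  (dtE.symm.trans (swp s)).trans dtE

lemma permS_dt (s : Fin (m + 3) → Bool) (i : Fin (m + 3)) (b : Bool) :
    permS s (dt (i, b)) = dt (i, xor b (s i)) := by
  unfold permS
  rw [Equiv.trans_apply, Equiv.trans_apply, ← dtE_apply, Equiv.symm_apply_apply]
  rfl

lemma sum_vertexPerms (f : Equiv.Perm (cycleGraph (m + 3)).Dart → ℂ) :
    ∑ σ ∈ vertexPerms (cycleGraph (m + 3)), f σ = ∑ s : Fin (m + 3) → Bool, f (permS s) := by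
  symm
  refine Finset.sum_bij (fun s _ => permS s) ?_ ?_ ?_ ?_
  · intro s _
    unfold vertexPerms
    rw [Finset.mem_filter]
    refine ⟨Finset.mem_univ _, fun d => ?_⟩
    obtain ⟨⟨i, b⟩, rfl⟩ := dt_surjective d
    rw [permS_dt, dt_fst, dt_fst]
  · intro s _ s' _ h
    funext i
    have h1 : permS s (dt (i, false)) = permS s' (dt (i, false)) := by
      have h' : permS s = permS s' := h
      rw [h']
    rw [permS_dt, permS_dt] at h1
    have h2 := dt_injective h1
    simpa using h2
  · intro σ hσ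
    unfold vertexPerms at hσ
    rw [Finset.mem_filter] at hσ
    have hfst := hσ.2
    refine ⟨fun i => (dtE.symm (σ (dt (i, false)))).2, Finset.mem_univ _, ?_⟩
    have key : ∀ i, σ (dt (i, false)) = dt (i, (dtE.symm (σ (dt (i, false)))).2) := by
      intro i
      set q := dtE.symm (σ (dt (i, false))) with hq
      have h1 : dt q = σ (dt (i, false)) := by
        rw [← dtE_apply, hq, Equiv.apply_symm_apply]
      have h2 : q.1 = i := by
        rw [← dt_fst q, h1, hfst, dt_fst]
      rw [← h1]
      congr 1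
      exact Prod.ext h2 rfl
    apply Equiv.ext
    intro d
    obtain ⟨⟨i, b⟩, rfl⟩ := dt_surjective d
    rw [permS_dt]
    cases b
    · rw [Bool.false_xor]
      exact (key i).symm
    · set c := (dtE.symm (σ (dt (i, false)))).2 with hc
      obtain ⟨⟨j, e⟩, hj⟩ := dt_surjective (σ (dt (i, true)))
      have h1 : j = i := by
        have := hfst (dt (i, true))
        rw [← hj, dt_fst, dt_fst] at this
        exact this
      subst h1
      have h2 : e ≠ c := by
        intro h
        have h3 : σ (dt (j, true)) = σ (dt (j, false)) := by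
          rw [← hj, key j, ← hc, h]
        have h4 := dt_injective (σ.injective h3)
        simp at h4
      rw [← hj]
      have h5 : e = !c := Bool.eq_not_of_ne h2
      rw [h5, Bool.true_xor]
  · intro s _
    rfl

/-- The forward orientation. -/
def fwdSet : Finset (cycleGraph (m + 3)).Dart := Finset.univ.image fwd

lemma fwd_injective : Function.Injective (fwd (m := m)) := by
  intro i j h
  exact congrArg (fun d : (cycleGraph (m + 3)).Dart => d.fst) h

lemma isOrientation_fwdSet : IsOrientation (cycleGraph (m + 3)) (fwdSet (m := m)) := by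
  intro d
  obtain ⟨⟨i, b⟩, rfl⟩ := dt_surjective d
  unfold fwdSet
  cases b
  · rw [dt_false, symm_fwd]
    constructor
    · intro _ h
      obtain ⟨j, -, hj⟩ := Finset.mem_image.1 h
      exact fwd_ne_bwd _ _ hj
    · intro _
      exact Finset.mem_image.2 ⟨i, Finset.mem_univ _, rfl⟩
  · rw [dt_true, symm_bwd]
    constructor
    · intro h
      obtain ⟨j, -, hj⟩ := Finset.mem_image.1 h
      exact absurd hj (fwd_ne_bwd _ _)
    · intro h
      exact absurd (Finset.mem_image.2 ⟨i - 1, Finset.mem_univ _, rfl⟩) h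

lemma prod_fwdSet (g : (cycleGraph (m + 3)).Dart → ℂ) :
    ∏ d ∈ fwdSet, g d = ∏ i, g (fwd i) := by
  unfold fwdSet
  rw [Finset.prod_image (fun i _ j _ h => fwd_injective h)]

/-- Path sums of a matrix. -/
lemma path_sum (M : Matrix Bool Bool ℂ) (k : ℕ) : ∀ g : Bool → Bool → ℂ,
    ∑ s : Fin (k + 1) → Bool, (∏ i : Fin k, M (s i.castSucc) (s i.succ)) *
      g (s 0) (s (Fin.last k)) = ∑ a, ∑ b, (M ^ k) a b * g a b := by
  induction k with
  | zero =>
    intro g
    simp only [Finset.univ_eq_empty, Finset.prod_empty, one_mul, pow_zero]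
    rw [← (Equiv.funUnique (Fin 1) Bool).symm.sum_comp]
    apply Finset.sum_congr rfl
    intro a _
    simp [Matrix.one_apply]
  | succ k ih =>
    intro g
    rw [← (Fin.consEquiv (fun _ : Fin (k + 2) => Bool)).sum_comp, Fintype.sum_prod_type]
    have h1 : ∀ a : Bool, ∀ s : Fin (k + 1) → Bool,
        (∏ i : Fin (k + 1), M ((Fin.consEquiv (fun _ : Fin (k + 2) => Bool)) (a, s) i.castSucc)
          ((Fin.consEquiv (fun _ : Fin (k + 2) => Bool)) (a, s) i.succ)) *
          g ((Fin.consEquiv (fun _ : Fin (k + 2) => Bool)) (a, s) 0)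
            ((Fin.consEquiv (fun _ : Fin (k + 2) => Bool)) (a, s) (Fin.last (k + 1))) =
        (∏ i : Fin k, M (s i.castSucc) (s i.succ)) * (M a (s 0) * g a (s (Fin.last k))) := by
      intro a s
      rw [Fin.prod_univ_succ]
      simp only [Fin.consEquiv_apply, Fin.castSucc_zero, Fin.cons_zero, Fin.cons_succ,
        ← Fin.succ_castSucc, ← Fin.succ_last]
      ring
    simp only [h1]
    have h2 : ∀ a : Bool, ∑ s : Fin (k + 1) → Bool,
        (∏ i : Fin k, M (s i.castSucc) (s i.succ)) * (M a (s 0) * g a (s (Fin.last k))) =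
        ∑ x, ∑ b, (M ^ k) x b * (M a x * g a b) := fun a => ih (fun x b => M a x * g a b)
    rw [Finset.sum_congr rfl (fun a _ => h2 a)]
    apply Finset.sum_congr rfl
    intro a _
    rw [Finset.sum_comm]
    apply Finset.sum_congr rfl
    intro b _
    rw [pow_succ', Matrix.mul_apply, Finset.sum_mul]
    apply Finset.sum_congr rfl
    intro x _
    ring

/-- Cyclic sums of a matrix. -/
lemma cyc_sum (M : Matrix Bool Bool ℂ) (k : ℕ) :
    ∑ s : Fin (k + 1) → Bool, ∏ i : Fin (k + 1), M (s i) (s (i + 1)) = Matrix.trace (M ^ (k + 1)) := by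
  have h1 : ∀ s : Fin (k + 1) → Bool, ∏ i : Fin (k + 1), M (s i) (s (i + 1)) =
      (∏ i : Fin k, M (s i.castSucc) (s i.succ)) * M (s (Fin.last k)) (s 0) := by
    intro s
    rw [Fin.prod_univ_castSucc]
    congr 1
    · apply Finset.prod_congr rfl
      intro i _
      rw [Fin.coeSucc_eq_succ]
    · rw [Fin.last_add_one]
  rw [Finset.sum_congr rfl (fun s _ => h1 s), path_sum M k (fun a b => M b a)]
  rw [pow_succ, Matrix.trace]
  simp only [Matrix.diag_apply, Matrix.mul_apply]

/-- The amplitude of a cycle in terms of a constant transfer matrix. -/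
theorem amplitude_cycle (ψ : (cycleGraph (m + 3)).Dart → (Fin 2 → ℂ)) (M : Matrix Bool Bool ℂ)
    (w : Fin (m + 3) → ℂ) (hw : ∀ i, w i ≠ 0)
    (h : ∀ i b b', omega (ψ (dt (i, b))) (ψ (dt (i + 1, !b'))) = w i * M b b')
    (hM : M false false = 1) :
    amplitude (cycleGraph (m + 3)) ψ fwdSet = Matrix.trace (M ^ (m + 3)) := by
  unfold amplitude
  rw [sum_vertexPerms]
  have hden : ∏ d ∈ fwdSet, omega (ψ d) (ψ d.symm) = ∏ i, w i := by
    rw [prod_fwdSet]
    apply Finset.prod_congr rfl
    intro i _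
    have := h i false false
    rw [hM, mul_one] at this
    rw [symm_fwd, ← this]
    rfl
  have hnum : ∀ s : Fin (m + 3) → Bool,
      ∏ d ∈ fwdSet, omega (ψ (permS s d)) (ψ (permS s d.symm)) =
        (∏ i, w i) * ∏ i, M (s i) (s (i + 1)) := by
    intro s
    rw [prod_fwdSet, ← Finset.prod_mul_distrib]
    apply Finset.prod_congr rfl
    intro i _
    rw [symm_fwd, ← dt_false, ← dt_true, permS_dt, permS_dt, Bool.false_xor, Bool.true_xor, h]
  rw [hden, Finset.sum_congr rfl (fun s _ => hnum s), ← Finset.mul_sum,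
    mul_div_cancel_left₀ _ (Finset.prod_ne_zero_iff.2 (fun i _ => hw i))]
  exact cyc_sum M (m + 2)

end Pool.Agent.Lib.MP229e70
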