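import Mathlib
import Pool.Agent.Lib.MP_229e70_co.Defs

/-!
The amplitude does not depend on the spinor choice nor on the orientation.
-/

set_option autoImplicit false

namespace Pool.Agent.Lib.MP229e70

open Complex Finset

lemma omega_antisymm (p q : Fin 2 → ℂ) : omega p q = - omega q p := by
  unfold omega; ring

lemma pauliDot_mulVec_zero (v : E3) (ψ : Fin 2 → ℂ) :
    (pauliDot v).mulVec ψ 0 = (v 2 : ℂ) * ψ 0 + ((v 0 : ℂ) - I * v 1) * ψ 1 := by
  simp [pauliDot, Matrix.mulVec, dotProduct, Fin.sum_univ_two, -mul_eq_mul_right_iff,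
    -mul_eq_mul_left_iff]
  ring

lemma pauliDot_mulVec_one (v : E3) (ψ : Fin 2 → ℂ) :
    (pauliDot v).mulVec ψ 1 = ((v 0 : ℂ) + I * v 1) * ψ 0 - (v 2 : ℂ) * ψ 1 := by
  simp [pauliDot, Matrix.mulVec, dotProduct, Fin.sum_univ_two, -mul_eq_mul_right_iff,
    -mul_eq_mul_left_iff]
  ring

lemma omega_eq_zero_of_eigen {v : E3} {ψ φ : Fin 2 → ℂ}
    (h1 : (pauliDot v).mulVec ψ = ψ) (h2 : (pauliDot v).mulVec φ = φ) : omega ψ φ = 0 := by
  have a0 := congrFun h1 0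
  have a1 := congrFun h1 1
  have b0 := congrFun h2 0
  have b1 := congrFun h2 1
  rw [pauliDot_mulVec_zero] at a0 b0
  rw [pauliDot_mulVec_one] at a1 b1
  unfold omega
  linear_combination (1/2 : ℂ) * (-(ψ 0) * b1 - (ψ 1) * b0 * (-1) + φ 0 * a1 - φ 1 * a0)

lemma exists_scalar {v : E3} {ψ φ : Fin 2 → ℂ}
    (h1 : ‖ψ 0‖ ^ 2 + ‖ψ 1‖ ^ 2 = 1) (hψ : (pauliDot v).mulVec ψ = ψ)
    (h2 : ‖φ 0‖ ^ 2 + ‖φ 1‖ ^ 2 = 1) (hφ : (pauliDot v).mulVec φ = φ) :
    ∃ c : ℂ, c ≠ 0 ∧ ∀ i, φ i = c * ψ i := by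
  have h0 := omega_eq_zero_of_eigen hψ hφ
  unfold omega at h0
  have hn : (starRingEnd ℂ) (ψ 0) * ψ 0 + (starRingEnd ℂ) (ψ 1) * ψ 1 = 1 := by
    rw [Complex.conj_mul', Complex.conj_mul']
    exact_mod_cast h1
  set c : ℂ := (starRingEnd ℂ) (ψ 0) * φ 0 + (starRingEnd ℂ) (ψ 1) * φ 1 with hc
  have e0 : φ 0 = c * ψ 0 := by
    rw [hc]; linear_combination (-(φ 0)) * hn + (-(starRingEnd ℂ) (ψ 1)) * h0
  have e1 : φ 1 = c * ψ 1 := by
    rw [hc]; linear_combination (-(φ 1)) * hn + ((starRingEnd ℂ) (ψ 0)) * h0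
  refine ⟨c, ?_, ?_⟩
  · intro hc0
    rw [hc0] at e0 e1
    rw [e0, e1] at h2
    simp at h2
  · intro i
    fin_cases i
    · exact e0
    · exact e1

variable {V : Type} (G : SimpleGraph V) [Fintype V] [DecidableEq V] [DecidableRel G.Adj]

lemma isOrientation_image {Δ : Finset G.Dart} (hΔ : IsOrientation G Δ) :
    Δ.image (fun d => d.symm) = Δᶜ := by
  ext d
  rw [Finset.mem_image, Finset.mem_compl]
  constructor
  · rintro ⟨e, he, rfl⟩
    exact (hΔ e).1 he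
  · intro hd
    refine ⟨d.symm, ?_, d.symm_symm⟩
    rw [hΔ d.symm, d.symm_symm]; exact hd

lemma symm_injOn (Δ : Finset G.Dart) :
    Set.InjOn (fun d : G.Dart => d.symm) (Δ : Set G.Dart) := by
  intro a _ b _ h
  exact SimpleGraph.Dart.symm_involutive.injective h

/-- A product over all darts splits over an orientation. -/
lemma prod_darts {Δ : Finset G.Dart} (hΔ : IsOrientation G Δ) (c : G.Dart → ℂ) :
    ∏ d ∈ Δ, (c d * c d.symm) = ∏ d, c d := by
  rw [Finset.prod_mul_distrib]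
  have h1 : ∏ d ∈ Δ, c d.symm = ∏ d ∈ Δᶜ, c d := by
    rw [← isOrientation_image G hΔ, Finset.prod_image (symm_injOn G Δ)]
  rw [h1, Finset.prod_mul_prod_compl]

/-- Changing the orientation changes the product of an antisymmetric function by a sign that
does not depend on the function. -/
lemma prod_orientation {Δ Δ' : Finset G.Dart} (hΔ : IsOrientation G Δ)
    (hΔ' : IsOrientation G Δ') (g : G.Dart → ℂ) (hg : ∀ d, g d.symm = - g d) :
    ∏ d ∈ Δ', g d = (-1) ^ (Δ \ Δ').card * ∏ d ∈ Δ, g d := by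
  have e1 : Δ' = (Δ ∩ Δ') ∪ (Δ \ Δ').image (fun d => d.symm) := by
    ext d
    rw [Finset.mem_union, Finset.mem_inter, Finset.mem_image]
    constructor
    · intro hd
      by_cases h : d ∈ Δ
      · exact Or.inl ⟨h, hd⟩
      · right
        refine ⟨d.symm, ?_, d.symm_symm⟩
        rw [Finset.mem_sdiff]
        constructor
        · rw [hΔ d.symm, d.symm_symm]; exact h
        · exact (hΔ' d).1 hd
    · rintro (⟨-, h⟩ | ⟨e, he, rfl⟩)
      · exact h
      · rw [Finset.mem_sdiff] at he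
        rw [hΔ' e.symm, e.symm_symm]; exact he.2
  have hdisj : Disjoint (Δ ∩ Δ') ((Δ \ Δ').image (fun d => d.symm)) := by
    rw [Finset.disjoint_left]
    intro d hd hd'
    rw [Finset.mem_image] at hd'
    obtain ⟨e, he, rfl⟩ := hd'
    have h1 := (Finset.mem_inter.1 hd).1
    have h2 := (Finset.mem_sdiff.1 he).1
    exact (hΔ e).1 h2 h1
  have e2 : ∏ d ∈ Δ', g d = (∏ d ∈ Δ ∩ Δ', g d) * ∏ d ∈ Δ \ Δ', (- g d) := by
    conv_lhs => rw [e1]
    rw [Finset.prod_union hdisj, Finset.prod_image (symm_injOn G _)]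
    congr 1
    exact Finset.prod_congr rfl (fun d _ => hg d)
  rw [e2, Finset.prod_neg, ← Finset.prod_inter_mul_prod_diff Δ Δ' g]
  ring

theorem amplitude_indep {x : V → E3} {ψ φ : G.Dart → (Fin 2 → ℂ)} {Δ Δ' : Finset G.Dart}
    (hψ : IsSpinorChoice G x ψ) (hφ : IsSpinorChoice G x φ)
    (hΔ : IsOrientation G Δ) (hΔ' : IsOrientation G Δ') :
    amplitude G φ Δ' = amplitude G ψ Δ := by
  have h1 : ∀ d : G.Dart, ∃ c : ℂ, c ≠ 0 ∧ ∀ i, φ d i = c * ψ d i := fun d =>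
    exists_scalar (hψ d).1 (hψ d).2 (hφ d).1 (hφ d).2
  choose c hc0 hc using h1
  have homega : ∀ a b : G.Dart, omega (φ a) (φ b) = c a * c b * omega (ψ a) (ψ b) := by
    intro a b
    unfold omega
    rw [hc a 0, hc a 1, hc b 0, hc b 1]; ring
  have hterm : ∀ σ : Equiv.Perm G.Dart,
      ∏ d ∈ Δ', omega (φ (σ d)) (φ (σ d.symm)) =
        (-1) ^ (Δ \ Δ').card * (∏ d, c d) * ∏ d ∈ Δ, omega (ψ (σ d)) (ψ (σ d.symm)) := by
    intro σ
    have h2 := prod_orientation G hΔ hΔ' (fun d => omega (φ (σ d)) (φ (σ d.symm)))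
      (fun d => by simp only [SimpleGraph.Dart.symm_symm]; exact omega_antisymm _ _)
    rw [h2]
    have h3 : ∏ d ∈ Δ, omega (φ (σ d)) (φ (σ d.symm)) =
        ∏ d ∈ Δ, ((c (σ d) * c (σ d.symm)) * omega (ψ (σ d)) (ψ (σ d.symm))) :=
      Finset.prod_congr rfl (fun d _ => homega _ _)
    rw [h3, Finset.prod_mul_distrib, prod_darts G hΔ (fun d => c (σ d)),
      Equiv.prod_comp σ c]
    ring
  have hcp : (∏ d, c d) ≠ 0 := Finset.prod_ne_zero_iff.2 (fun d _ => hc0 d)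
  have hK : (-1 : ℂ) ^ (Δ \ Δ').card * (∏ d, c d) ≠ 0 :=
    mul_ne_zero (pow_ne_zero _ (by norm_num)) hcp
  unfold amplitude
  have hden := hterm (Equiv.refl _)
  simp only [Equiv.refl_apply] at hden
  rw [hden, Finset.sum_congr rfl (fun σ _ => hterm σ), ← Finset.mul_sum,
    mul_div_mul_left _ _ hK]

end Pool.Agent.Lib.MP229e70
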