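import Mathlib
import Pool.Agent.Lib.MP_229e70_co.Cycle
import Pool.Agent.Lib.MP_229e70_co.Indep

/-!
The regular polygon: exact value of the amplitude of the cycle.
-/

set_option autoImplicit false

namespace Pool.Agent.Lib.MP229e70

open Complex Finset SimpleGraph

/-- Embedding of the complex plane in three-space. -/
noncomputable def emb (z : ℂ) : E3 := !₂[z.re, z.im, 0]

lemma norm_emb (z : ℂ) : ‖emb z‖ = ‖z‖ := by
  rw [EuclideanSpace.norm_eq, Complex.norm_def, Complex.normSq_apply]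
  congr 1
  rw [Fin.sum_univ_three]
  simp [emb]
  ring

lemma emb_sub (z w : ℂ) : emb z - emb w = emb (z - w) := by
  ext i
  fin_cases i <;> simp [emb]

lemma smul_emb (c : ℝ) (z : ℂ) : c • emb z = emb (c * z) := by
  ext i
  fin_cases i <;> simp [emb]

lemma emb_injective : Function.Injective emb := by
  intro z w h
  have h1 := congrArg (fun v : E3 => v 0) h
  have h2 := congrArg (fun v : E3 => v 1) h
  simp [emb] at h1 h2
  exact Complex.ext h1 h2

/-- The spinor of a planar direction. -/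
noncomputable def spin (z : ℂ) : Fin 2 → ℂ := ![((Real.sqrt 2)⁻¹ : ℝ), ((Real.sqrt 2)⁻¹ : ℝ) * z]

lemma sqrt_two_inv_sq : ((Real.sqrt 2)⁻¹ : ℝ) ^ 2 = 1 / 2 := by
  rw [inv_pow, Real.sq_sqrt (by norm_num)]; norm_num

lemma spin_norm {z : ℂ} (hz : ‖z‖ = 1) : ‖spin z 0‖ ^ 2 + ‖spin z 1‖ ^ 2 = 1 := by
  simp only [spin, Matrix.cons_val_zero, Matrix.cons_val_one, norm_mul, hz, mul_one,
    Complex.norm_real, Real.norm_eq_abs, sq_abs]
  rw [sqrt_two_inv_sq]; norm_num

lemma spin_eigen {z : ℂ} (hz : ‖z‖ = 1) : (pauliDot (emb z)).mulVec (spin z) = spin z := by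
  have hz2 : (z.re : ℂ) ^ 2 + (z.im : ℂ) ^ 2 = 1 := by
    have h1 : z.re ^ 2 + z.im ^ 2 = 1 := by
      have := Complex.sq_norm z
      rw [hz, Complex.normSq_apply] at this
      nlinarith
    exact_mod_cast h1
  have hzz : z = (z.re : ℂ) + (z.im : ℂ) * I := (Complex.re_add_im z).symm
  funext i
  fin_cases i
  · show (pauliDot (emb z)).mulVec (spin z) 0 = spin z 0
    rw [pauliDot_mulVec_zero]
    simp only [spin, emb, Matrix.cons_val_zero, Matrix.cons_val_one]
    simp
    have h : ((z.re : ℂ) - I * z.im) * z = 1 := by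
      linear_combination ((z.re : ℂ) - I * z.im) * hzz + hz2 - (z.im : ℂ) ^ 2 * I_sq
    linear_combination ((Real.sqrt 2 : ℂ)⁻¹) * h
  · show (pauliDot (emb z)).mulVec (spin z) 1 = spin z 1
    rw [pauliDot_mulVec_one]
    simp only [spin, emb, Matrix.cons_val_zero, Matrix.cons_val_one]
    simp
    conv_rhs => rw [hzz]
    ring

lemma omega_spin (a b : ℂ) : omega (spin a) (spin b) = (b - a) / 2 := by
  have h : ((Real.sqrt 2 : ℝ) : ℂ)⁻¹ ^ 2 = 1 / 2 := by
    have := sqrt_two_inv_sq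
    have h2 := congrArg (fun t : ℝ => (t : ℂ)) this
    push_cast at h2
    exact h2
  simp only [omega, spin, Matrix.cons_val_zero, Matrix.cons_val_one]
  push_cast
  linear_combination (b - a) * h

variable {m : ℕ}

/-- Vertices of the regular polygon. -/
noncomputable def zeta (m : ℕ) : ℂ := Complex.exp (2 * Real.pi * I / ((m + 3 : ℕ) : ℂ))

lemma zeta_primitive (m : ℕ) : IsPrimitiveRoot (zeta m) (m + 3) :=
  Complex.isPrimitiveRoot_exp (m + 3) (by omega)

lemma zeta_pow (m : ℕ) : zeta m ^ (m + 3) = 1 := (zeta_primitive m).pow_eq_one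

noncomputable def pp (i : Fin (m + 3)) : ℂ := zeta m ^ i.val

lemma pp_add_one (i : Fin (m + 3)) : pp (i + 1) = zeta m * pp i := by
  unfold pp
  rw [Fin.val_add]
  have h1 : ((1 : Fin (m + 3)) : ℕ) = 1 := by simp
  rw [h1, ← pow_eq_pow_mod _ (zeta_pow m), pow_succ]
  ring

lemma zeta_ne_zero (m : ℕ) : zeta m ≠ 0 := Complex.exp_ne_zero _

lemma pp_sub_one (i : Fin (m + 3)) : pp (i - 1) = (zeta m)⁻¹ * pp i := by
  have h := pp_add_one (i - 1)
  rw [sub_add_cancel] at h
  rw [h, ← mul_assoc, inv_mul_cancel₀ (zeta_ne_zero m), one_mul]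

lemma norm_zeta (m : ℕ) : ‖zeta m‖ = 1 := by
  unfold zeta
  have : (2 * Real.pi * I / ((m + 3 : ℕ) : ℂ)) = ((2 * Real.pi / ((m + 3 : ℕ) : ℝ) : ℝ) : ℂ) * I := by
    push_cast; ring
  rw [this, Complex.norm_exp_ofReal_mul_I]

lemma norm_pp (i : Fin (m + 3)) : ‖pp i‖ = 1 := by
  unfold pp
  rw [norm_pow, norm_zeta, one_pow]

lemma zeta_ne_one (m : ℕ) : zeta m ≠ 1 := (zeta_primitive m).ne_one (by omega)

/-- The regular polygon. -/
noncomputable def poly (i : Fin (m + 3)) : E3 := emb (pp i)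

lemma pp_ne (i j : Fin (m + 3)) (h : (cycleGraph (m + 3)).Adj i j) : pp i ≠ pp j := by
  intro he
  rcases cycleGraph_adj.1 h with h1 | h1
  · have : i = j + 1 := by rw [← h1]; simp
    rw [this, pp_add_one] at he
    have h2 : zeta m * pp j = 1 * pp j := by rw [one_mul]; exact he
    exact zeta_ne_one m (mul_right_cancel₀ (by
      intro h0; have := norm_pp j; rw [h0] at this; simp at this) h2)
  · have : j = i + 1 := by rw [← h1]; simp
    rw [this, pp_add_one] at he
    have h2 : zeta m * pp i = 1 * pp i := by rw [one_mul]; exact he.symm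
    exact zeta_ne_one m (mul_right_cancel₀ (by
      intro h0; have := norm_pp i; rw [h0] at this; simp at this) h2)

lemma poly_admissible : Admissible (cycleGraph (m + 3)) (poly (m := m)) := by
  intro i j h he
  exact pp_ne i j h (emb_injective he)

/-- Complex unit direction of a dart. -/
noncomputable def dz (d : (cycleGraph (m + 3)).Dart) : ℂ :=
  (‖pp d.snd - pp d.fst‖⁻¹ : ℝ) * (pp d.snd - pp d.fst)

lemma norm_dz (d : (cycleGraph (m + 3)).Dart) : ‖dz d‖ = 1 := by
  unfold dz
  have h : pp d.snd - pp d.fst ≠ 0 := sub_ne_zero.2 (pp_ne _ _ d.adj).symm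
  have h2 : ‖pp d.snd - pp d.fst‖ ≠ 0 := norm_ne_zero_iff.2 h
  rw [norm_mul, Complex.norm_real, norm_inv, norm_norm, inv_mul_cancel₀ h2]

lemma dir_poly (d : (cycleGraph (m + 3)).Dart) : dir poly d.fst d.snd = emb (dz d) := by
  unfold dir poly dz
  rw [emb_sub, norm_emb, smul_emb]

/-- The standard spinor choice for the regular polygon. -/
noncomputable def psi (d : (cycleGraph (m + 3)).Dart) : Fin 2 → ℂ := spin (dz d)

lemma psi_choice : IsSpinorChoice (cycleGraph (m + 3)) poly (psi (m := m)) := by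
  intro d
  refine ⟨spin_norm (norm_dz d), ?_⟩
  rw [dir_poly]
  exact spin_eigen (norm_dz d)

/-- Common phase of the directions. -/
noncomputable def z0 (m : ℕ) : ℂ := (‖zeta m - 1‖⁻¹ : ℝ) * (zeta m - 1)

lemma z0_ne_zero (m : ℕ) : z0 m ≠ 0 := by
  unfold z0
  have h : zeta m - 1 ≠ 0 := sub_ne_zero.2 (zeta_ne_one m)
  apply mul_ne_zero _ h
  have : ‖zeta m - 1‖ ≠ 0 := norm_ne_zero_iff.2 h
  exact_mod_cast inv_ne_zero this

lemma dz_fwd (i : Fin (m + 3)) : dz (fwd i) = pp i * z0 m := by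
  show (‖pp (i + 1) - pp i‖⁻¹ : ℝ) * (pp (i + 1) - pp i) = pp i * z0 m
  have h1 : pp (i + 1) - pp i = pp i * (zeta m - 1) := by rw [pp_add_one]; ring
  rw [h1, norm_mul, norm_pp, one_mul]
  unfold z0; ring

lemma dz_bwd (i : Fin (m + 3)) : dz (bwd i) = -((zeta m)⁻¹ * pp i * z0 m) := by
  show (‖pp (i - 1) - pp i‖⁻¹ : ℝ) * (pp (i - 1) - pp i) = -((zeta m)⁻¹ * pp i * z0 m)
  have h1 : pp (i - 1) - pp i = -((zeta m)⁻¹ * pp i * (zeta m - 1)) := by
    rw [pp_sub_one]
    have := mul_inv_cancel₀ (zeta_ne_zero m)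
    linear_combination (pp i) * this
  rw [h1, norm_neg, norm_mul, norm_mul, norm_pp, norm_inv, norm_zeta, inv_one, one_mul, one_mul]
  unfold z0; ring

/-- The transfer matrix of the regular polygon. -/
noncomputable def TM (m : ℕ) : Matrix Bool Bool ℂ := fun b b' =>
  match b, b' with
  | false, false => 1
  | false, true => (1 - zeta m) / 2
  | true, false => (1 - (zeta m)⁻¹) / 2
  | true, true => -(zeta m + (zeta m)⁻¹) / 2

lemma psi_transfer (i : Fin (m + 3)) (b b' : Bool) :
    omega (psi (dt (i, b))) (psi (dt (i + 1, !b'))) = (-(pp i * z0 m)) * TM m b b' := by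
  have hz := mul_inv_cancel₀ (zeta_ne_zero m)
  cases b <;> cases b'
  · show omega (psi (fwd i)) (psi (bwd (i + 1))) = _
    unfold psi
    rw [omega_spin, dz_fwd, dz_bwd, pp_add_one]
    simp only [TM]
    linear_combination (-(pp i * z0 m) / 2) * hz
  · show omega (psi (fwd i)) (psi (fwd (i + 1))) = _
    unfold psi
    rw [omega_spin, dz_fwd, dz_fwd, pp_add_one]
    simp only [TM]
    ring
  · show omega (psi (bwd i)) (psi (bwd (i + 1))) = _
    unfold psi
    rw [omega_spin, dz_bwd, dz_bwd, pp_add_one]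
    simp only [TM]
    linear_combination (-(pp i * z0 m) / 2) * hz
  · show omega (psi (bwd i)) (psi (fwd (i + 1))) = _
    unfold psi
    rw [omega_spin, dz_bwd, dz_fwd, pp_add_one]
    simp only [TM]
    ring

lemma amplitude_poly : amplitude (cycleGraph (m + 3)) (psi (m := m)) fwdSet =
    Matrix.trace (TM m ^ (m + 3)) := by
  apply amplitude_cycle psi (TM m) (fun i => -(pp i * z0 m))
  · intro i
    apply neg_ne_zero.2
    apply mul_ne_zero _ (z0_ne_zero m)
    intro h0; have := norm_pp i; rw [h0] at this; simp at this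
  · intro i b b'
    exact psi_transfer i b b'
  · rfl

/-- Cayley-Hamilton for the transfer matrix. -/
lemma TM_sq (m : ℕ) : TM m ^ 2 = (1 - (zeta m + (zeta m)⁻¹) / 2) • TM m +
    (1 / 2 + (zeta m + (zeta m)⁻¹) / 4) • (1 : Matrix Bool Bool ℂ) := by
  have hz := mul_inv_cancel₀ (zeta_ne_zero m)
  ext b b'
  rw [pow_two, Matrix.mul_apply]
  simp only [Fintype.sum_bool, Matrix.add_apply, Matrix.smul_apply, smul_eq_mul]
  cases b <;> cases b'
  · simp only [TM, Matrix.one_apply_eq]
    linear_combination (1 / 4 : ℂ) * hz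
  · simp only [TM, Matrix.one_apply, if_false, reduceCtorEq]
    ring
  · simp only [TM, Matrix.one_apply, if_false, reduceCtorEq]
    ring
  · simp only [TM, Matrix.one_apply_eq]
    linear_combination (1 / 4 : ℂ) * hz

lemma trace_TM (m : ℕ) (l1 l2 : ℂ) (h1 : l1 + l2 = 1 - (zeta m + (zeta m)⁻¹) / 2)
    (h2 : l1 * l2 = -(1 / 2 + (zeta m + (zeta m)⁻¹) / 4)) (k : ℕ) :
    Matrix.trace (TM m ^ k) = l1 ^ k + l2 ^ k := by
  induction k using Nat.strong_induction_on with
  | _ k ih =>
    match k, ih with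
    | 0, _ => simp [Matrix.trace]; norm_num
    | 1, _ =>
      rw [pow_one, pow_one, pow_one, h1]
      simp only [Matrix.trace, Matrix.diag_apply, Fintype.sum_bool, TM]
      ring
    | k + 2, ih =>
      have e1 := ih (k + 1) (by omega)
      have e0 := ih k (by omega)
      rw [pow_add, TM_sq, mul_add, Matrix.trace_add, Matrix.mul_smul, Matrix.mul_smul,
        Matrix.trace_smul, Matrix.trace_smul, ← pow_succ, mul_one, e1, e0, ← h1]
      have h3 : (1 / 2 + (zeta m + (zeta m)⁻¹) / 4) = - (l1 * l2) := by rw [h2]; ring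
      rw [h3, smul_eq_mul, smul_eq_mul]
      ring

end Pool.Agent.Lib.MP229e70
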